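import Pool.Agent.Q229.PS.Stm
import Pool.Agent.Q229.RatP

/-!
# PATH-STAB is in NP (job PS-M2)
-/

set_option autoImplicit false

namespace Pool.Agent.Q31.PS

open Pool.Agent.NPC Pool.Agent.Q229.PS

/-! ### Counting adjacent pairs -/

/-- the number of adjacent pairs with a Boolean property -/
def cnt {α : Type} (r : α → α → Bool) (l : List α) : ℕ :=
  ((l.zip l.tail).filter (fun p => r p.1 p.2)).length

theorem adjC_eq_cnt {α : Type} {P : α → α → Prop} {r : α → α → Bool}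
    (h : ∀ a b, P a b ↔ r a b = true) (l : List α) : adjC P l = cnt r l := by
  classical
  induction l with
  | nil => rfl
  | cons a l ih =>
    cases l with
    | nil => rfl
    | cons b l =>
      rw [adjC_cons_cons, ih]
      unfold cnt
      simp only [List.tail_cons, List.zip_cons_cons, List.filter_cons]
      by_cases hr : r a b = true
      · simp only [(h a b).2 hr, hr, if_true, List.length_cons]
        omega
      · have h1 : ¬ P a b := fun h1 => hr ((h a b).1 h1)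
        simp only [h1, hr, if_false]
        simp

/-! ### Tests -/

/-- test for repetitions -/
def ndB (l : List (ℚ × ℚ)) : Bool :=
  l.zipIdx.all (fun x => l.zipIdx.all (fun y => !(decide (x.1 = y.1)) || decide (x.2 = y.2)))

theorem ndB_iff (l : List (ℚ × ℚ)) : ndB l = true ↔ l.Nodup := by
  unfold ndB
  simp only [List.all_eq_true, Bool.or_eq_true, Bool.not_eq_true', decide_eq_false_iff_not,
    decide_eq_true_eq]
  rw [List.nodup_iff_injective_get]
  constructor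
  · intro h i j hij
    have h1 : (l.get i, i.1) ∈ l.zipIdx := by
      rw [List.mk_mem_zipIdx_iff_getElem?]
      simp
    have h2 : (l.get j, j.1) ∈ l.zipIdx := by
      rw [List.mk_mem_zipIdx_iff_getElem?]
      simp
    rcases h _ h1 _ h2 with h3 | h3
    · exact absurd hij h3
    · exact Fin.ext h3
  · rintro h ⟨x, i⟩ hx ⟨y, j⟩ hy
    rw [List.mk_mem_zipIdx_iff_getElem?] at hx hy
    obtain ⟨hi, hi'⟩ := List.getElem?_eq_some_iff.1 hx
    obtain ⟨hj, hj'⟩ := List.getElem?_eq_some_iff.1 hy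
    by_cases hxy : x = y
    · right
      have := @h ⟨i, hi⟩ ⟨j, hj⟩ (by simp only [List.get_eq_getElem]; rw [hi', hj', hxy])
      simpa using this
    · exact Or.inl hxy

/-- the value of the determinant, with tests -/
def lexB (a b : ℚ × ℚ) (e : Bool) (p : ℚ × ℚ) : ℚ :=
  bif decide (detS a b p = 0) then (bif e then dotS a b p else - dotS a b p) else detS a b p

theorem lexB_eq (a b : ℚ × ℚ) (e : Bool) (p : ℚ × ℚ) : lexB a b e p = lexS a b e p := by
  unfold lexB lexS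
  by_cases h : detS a b p = 0
  · cases e <;> simp [h]
  · simp [h]

/-- the test for one pair and one direction -/
def t1 (P : List (ℚ × ℚ)) (k : ℤ) (a b : ℚ × ℚ) (e : Bool) : Bool :=
  decide ((cnt (fun p q => decide (lexB a b e p * lexB a b e q < 0)) P : ℤ) ≤ k)

theorem t1_iff (P : List (ℚ × ℚ)) (k : ℤ) (a b : ℚ × ℚ) (e : Bool) :
    t1 P k a b e = true ↔ (adjC (fun p q => lexS a b e p * lexS a b e q < 0) P : ℤ) ≤ k := by
  unfold t1
  rw [decide_eq_true_eq, adjC_eq_cnt (r := fun p q => decide (lexB a b e p * lexB a b e q < 0))]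
  intro p q
  rw [decide_eq_true_eq, lexB_eq, lexB_eq]

/-- all tests -/
def tAll (P : List (ℚ × ℚ)) (k : ℤ) : Bool :=
  P.all (fun a => P.all (fun b => decide (a = b) || (t1 P k a b true && t1 P k a b false)))

theorem tAll_iff (P : List (ℚ × ℚ)) (k : ℤ) : tAll P k = true ↔
    ∀ a ∈ P, ∀ b ∈ P, a ≠ b → ∀ e : Bool,
      (adjC (fun p q => lexS a b e p * lexS a b e q < 0) P : ℤ) ≤ k := by
  unfold tAll
  simp only [List.all_eq_true, Bool.or_eq_true, Bool.and_eq_true, decide_eq_true_eq, t1_iff]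
  constructor
  · intro h a ha b hb hab e
    rcases h a ha b hb with h1 | h1
    · exact absurd h1 hab
    · cases e
      · exact h1.2
      · exact h1.1
  · intro h a ha b hb
    by_cases hab : a = b
    · exact Or.inl hab
    · exact Or.inr ⟨h a ha b hb hab true, h a ha b hb hab false⟩

/-- the verifier -/
def ver (z : (List (ℚ × ℚ) × ℤ) × List (ℚ × ℚ)) : Bool :=
  ndB z.1.1 && (ndB z.2 && ((z.1.1.all (fun a => decide (a ∈ z.2)) &&
    z.2.all (fun a => decide (a ∈ z.1.1))) && (decide (2 ≤ z.2.length) && tAll z.2 z.1.2)))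

theorem ver_iff (S : List (ℚ × ℚ)) (k : ℤ) (P : List (ℚ × ℚ)) : ver ((S, k), P) = true ↔
    S.Nodup ∧ P.Perm S ∧ 2 ≤ P.length ∧ ∀ a ∈ P, ∀ b ∈ P, a ≠ b → ∀ e : Bool,
      (adjC (fun p q => lexS a b e p * lexS a b e q < 0) P : ℤ) ≤ k := by
  unfold ver
  simp only [Bool.and_eq_true, ndB_iff, List.all_eq_true, decide_eq_true_eq, tAll_iff]
  constructor
  · rintro ⟨h1, h2, ⟨h3, h4⟩, h5, h6⟩
    exact ⟨h1, (List.perm_ext_iff_of_nodup h2 h1).2 (fun a => ⟨h4 a, h3 a⟩), h5, h6⟩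
  · rintro ⟨h1, h2, h3, h4⟩
    have h5 : P.Nodup := h2.nodup_iff.2 h1
    exact ⟨h1, h5, ⟨fun a ha => h2.mem_iff.2 ha, fun a ha => h2.mem_iff.1 ha⟩, h3, h4⟩

/-! ### Polynomial time -/

section

variable {α : Type} [TEnc α]

theorem poly_cnt {β : Type} [TEnc β] {l : α → List β} {r : α → β → β → Bool} (hl : Poly l)
    (hr : Poly (fun p : α × β × β => r p.1 p.2.1 p.2.2)) : Poly (fun a => cnt (r a) (l a)) :=
  NPC.Poly.length (NPC.Poly.filter (p := fun a (x : β × β) => r a x.1 x.2) (NPC.Poly.zip hl (NPC.Poly.tail hl)) hr)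

theorem poly_ndB {l : α → List (ℚ × ℚ)} (hl : Poly l) : Poly (fun a => ndB (l a)) := by
  unfold ndB
  fun_prop

theorem poly_detS {a b p : α → ℚ × ℚ} (ha : Poly a) (hb : Poly b) (hp : Poly p) :
    Poly (fun x => detS (a x) (b x) (p x)) := by
  unfold detS
  fun_prop

theorem poly_dotS {a b p : α → ℚ × ℚ} (ha : Poly a) (hb : Poly b) (hp : Poly p) :
    Poly (fun x => dotS (a x) (b x) (p x)) := by
  unfold dotS
  fun_prop

theorem poly_lexB {a b p : α → ℚ × ℚ} {e : α → Bool} (ha : Poly a) (hb : Poly b) (he : Poly e)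
    (hp : Poly p) : Poly (fun x => lexB (a x) (b x) (e x) (p x)) := by
  have h1 := poly_detS ha hb hp
  have h2 := poly_dotS ha hb hp
  unfold lexB
  exact NPC.Poly.cond (NPC.Poly.decide_eq h1 (NPC.Poly.const 0))
    (NPC.Poly.cond he h2 (Q229.RatP.poly_neg h2)) h1

theorem poly_t1 {P : α → List (ℚ × ℚ)} {k : α → ℤ} {a b : α → ℚ × ℚ} {e : α → Bool}
    (hP : Poly P) (hk : Poly k) (ha : Poly a) (hb : Poly b) (he : Poly e) :
    Poly (fun x => t1 (P x) (k x) (a x) (b x) (e x)) := by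
  unfold t1
  refine NPC.Poly.ile (NPC.Poly.natCast (poly_cnt (r := fun x p q =>
    decide (lexB (a x) (b x) (e x) p * lexB (a x) (b x) (e x) q < 0)) hP ?_)) hk
  have ha' : Poly (fun z : α × (ℚ × ℚ) × (ℚ × ℚ) => a z.1) := ha.comp (NPC.Poly.fst NPC.Poly.id)
  have hb' : Poly (fun z : α × (ℚ × ℚ) × (ℚ × ℚ) => b z.1) := hb.comp (NPC.Poly.fst NPC.Poly.id)
  have he' : Poly (fun z : α × (ℚ × ℚ) × (ℚ × ℚ) => e z.1) := he.comp (NPC.Poly.fst NPC.Poly.id)
  exact Q229.RatP.poly_lt (Q229.RatP.poly_mul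
    (poly_lexB ha' hb' he' (NPC.Poly.fst (NPC.Poly.snd NPC.Poly.id)))
    (poly_lexB ha' hb' he' (NPC.Poly.snd (NPC.Poly.snd NPC.Poly.id)))) (NPC.Poly.const 0)

theorem poly_tAll {P : α → List (ℚ × ℚ)} {k : α → ℤ} (hP : Poly P) (hk : Poly k) :
    Poly (fun x => tAll (P x) (k x)) := by
  unfold tAll
  refine NPC.Poly.all (p := fun x a => (P x).all (fun b => decide (a = b) ||
    (t1 (P x) (k x) a b true && t1 (P x) (k x) a b false))) hP ?_
  refine NPC.Poly.all (l := fun z : α × (ℚ × ℚ) => P z.1)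
    (p := fun (z : α × (ℚ × ℚ)) (b : ℚ × ℚ) => decide (z.2 = b) ||
    (t1 (P z.1) (k z.1) z.2 b true && t1 (P z.1) (k z.1) z.2 b false))
    (hP.comp (NPC.Poly.fst NPC.Poly.id)) ?_
  have hP' : Poly (fun z : (α × (ℚ × ℚ)) × (ℚ × ℚ) => P z.1.1) :=
    hP.comp (NPC.Poly.fst (NPC.Poly.fst NPC.Poly.id))
  have hk' : Poly (fun z : (α × (ℚ × ℚ)) × (ℚ × ℚ) => k z.1.1) :=
    hk.comp (NPC.Poly.fst (NPC.Poly.fst NPC.Poly.id))
  have ha : Poly (fun z : (α × (ℚ × ℚ)) × (ℚ × ℚ) => z.1.2) := NPC.Poly.snd (NPC.Poly.fst NPC.Poly.id)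
  have hb : Poly (fun z : (α × (ℚ × ℚ)) × (ℚ × ℚ) => z.2) := NPC.Poly.snd NPC.Poly.id
  exact NPC.Poly.or (NPC.Poly.decide_eq ha hb) (NPC.Poly.and (poly_t1 hP' hk' ha hb (NPC.Poly.const true))
    (poly_t1 hP' hk' ha hb (NPC.Poly.const false)))

theorem poly_ver : Poly ver := by
  have hS : Poly (fun z : (List (ℚ × ℚ) × ℤ) × List (ℚ × ℚ) => z.1.1) :=
    NPC.Poly.fst (NPC.Poly.fst NPC.Poly.id)
  have hk : Poly (fun z : (List (ℚ × ℚ) × ℤ) × List (ℚ × ℚ) => z.1.2) :=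
    NPC.Poly.snd (NPC.Poly.fst NPC.Poly.id)
  have hP : Poly (fun z : (List (ℚ × ℚ) × ℤ) × List (ℚ × ℚ) => z.2) := NPC.Poly.snd NPC.Poly.id
  have h1 := poly_ndB hS
  have h2 := poly_ndB hP
  have h3 := poly_tAll hP hk
  unfold ver
  refine NPC.Poly.and h1 (NPC.Poly.and h2 (NPC.Poly.and (NPC.Poly.and ?_ ?_) (NPC.Poly.and ?_ h3)))
  · exact NPC.Poly.all (p := fun (z : (List (ℚ × ℚ) × ℤ) × List (ℚ × ℚ)) a => decide (a ∈ z.2)) hS
      (NPC.Poly.dec_mem (NPC.Poly.snd NPC.Poly.id) (hP.comp (NPC.Poly.fst NPC.Poly.id)))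
  · exact NPC.Poly.all (p := fun (z : (List (ℚ × ℚ) × ℤ) × List (ℚ × ℚ)) a => decide (a ∈ z.1.1)) hP
      (NPC.Poly.dec_mem (NPC.Poly.snd NPC.Poly.id) (hS.comp (NPC.Poly.fst NPC.Poly.id)))
  · exact NPC.Poly.decide_le (NPC.Poly.const 2) (NPC.Poly.length hP)

end

/-! ### Size of a permutation -/

theorem sz_perm {β : Type} [TEnc β] {l l' : List β} (h : l.Perm l') : sz l = sz l' := by
  induction h with
  | nil => rfl
  | cons a _ ih => simp [ih]
  | swap a b l => simp; omega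
  | trans _ _ ih1 ih2 => exact ih1.trans ih2

/-- PATH-STAB is in NP. -/
theorem m2 : M2Stm := by
  intro hM1
  refine inNPP_of (β := List (ℚ × ℚ)) (R := ver) poly_ver Polynomial.X ?_
  rintro ⟨S, k⟩
  unfold PathStab PathStabLe
  simp only [ver_iff, Polynomial.eval_X]
  constructor
  · rintro ⟨h1, h2, P, h3, h4⟩
    refine ⟨P, ?_, h1, h3, ?_, ?_⟩
    · rw [sz_perm h3, sz_pair]; omega
    · rw [h3.length_eq]; exact h2
    · exact (hM1 P k (h3.nodup_iff.2 h1) (by rw [h3.length_eq]; exact h2)).1 h4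
  · rintro ⟨P, -, h1, h3, h2, h4⟩
    refine ⟨h1, by rw [← h3.length_eq]; exact h2, P, h3, ?_⟩
    exact (hM1 P k (h3.nodup_iff.2 h1) h2).2 h4

end Pool.Agent.Q31.PS
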